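import Mathlib

/-!
# MP_2f9b3f_lc: an extreme point of a marginal-model polytope with contextual entropy function

Four random variables with three outcomes each, all pairs of variables jointly measurable.
The extreme point is the following (all probabilities are multiples of `1/3`): variables
`A₀, A₁, A₂` take the value `1` with probability `1/3` and `0` with probability `2/3`, `A₃` is
uniform; `(A₀, A₁)` is uniform on `(1,0), (0,1), (0,0)`; `A₀ = A₂` and `A₁ = A₂` almost surely;
`A₀ = 1` iff `A₃ = 2`; `A₁ = 1` iff `A₃ = 1`; `A₂ = 1` iff `A₃ = 0`.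
-/

set_option autoImplicit false

namespace Pool.Agent.Results.MP_2f9b3f_lc.ContextualVertex

open Finset

/-- `M` is a marginal scenario on `[n]`: a family of subsets closed under taking subsets and
containing the empty set and all singletons. -/
def IsScenario {n : ℕ} (M : Set (Finset (Fin n))) : Prop :=
  ∅ ∈ M ∧ (∀ i, {i} ∈ M) ∧ ∀ S ∈ M, ∀ T ⊆ S, T ∈ M

/-- `O_S = ∏_{i ∈ S} O_i`. -/
abbrev Tup {n : ℕ} (O : Fin n → Type) (S : Finset (Fin n)) : Type := (i : {i // i ∈ S}) → O i

/-- The restriction `O_S → O_T` for `T ⊆ S`. -/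
def restr {n : ℕ} {O : Fin n → Type} {S T : Finset (Fin n)} (h : T ⊆ S) (y : Tup O S) : Tup O T :=
  fun i => y ⟨i.1, h i.2⟩

open Classical in
/-- The polytope `P(M, O)` of marginal models: `p S` is a probability distribution on `O_S` for
every `S ∈ M` and, for `T ⊆ S` in `M`, the marginal of `p S` on `O_T` is `p T`. -/
def modelPolytope {n : ℕ} (M : Set (Finset (Fin n))) (O : Fin n → Type) [∀ i, Fintype (O i)] :
    Set ((S : M) → Tup O S.1 → ℝ) :=
  {p | (∀ S y, 0 ≤ p S y) ∧ (∀ S, ∑ y, p S y = 1) ∧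
    ∀ (S T : M) (h : T.1 ⊆ S.1) (z : Tup O T.1),
      ∑ y : Tup O S.1, (if restr h y = z then p S y else 0) = p T z}

/-- The entropy function of a marginal model (in nats). -/
noncomputable def entropyFn {n : ℕ} {M : Set (Finset (Fin n))} {O : Fin n → Type}
    [∀ i, Fintype (O i)] (p : (S : M) → Tup O S.1 → ℝ) (S : M) : ℝ :=
  ∑ y, Real.negMulLog (p S y)

/-- `f` is a polymatroid on `[n]`. -/
def IsPolymatroid {n : ℕ} (f : Finset (Fin n) → ℝ) : Prop :=
  f ∅ = 0 ∧ (∀ S T, S ⊆ T → f S ≤ f T) ∧ ∀ S T, f (S ∪ T) + f (S ∩ T) ≤ f S + f T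

/-- `g : M → ℝ` is non-contextual: it is the restriction of a polymatroid on `[n]`. -/
def NonContextual {n : ℕ} (M : Set (Finset (Fin n))) (g : M → ℝ) : Prop :=
  ∃ f : Finset (Fin n) → ℝ, IsPolymatroid f ∧ ∀ S : M, g S = f S.1

/-! ### The scenario and the model -/

/-- three outcomes for each of the four variables -/
abbrev OO : Fin 4 → Type := fun _ => Fin 3

/-- all sets with at most two elements -/
def MM : Set (Finset (Fin 4)) := {S | S.card ≤ 2}

theorem scenario_MM : IsScenario MM := by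
  refine ⟨by simp [MM], fun i => by simp [MM], fun S hS T hT => ?_⟩
  exact (Finset.card_le_card hT).trans hS

/-- the indicator of `w = j` -/
def ind (j w : Fin 3) : Fin 3 := if w = j then 1 else 0

/-- the value of `A_i` at the sample point `w` in the context `S` -/
def G (S : Finset (Fin 4)) (w : Fin 3) (i : Fin 4) : Fin 3 :=
  if i = 3 then w
  else if 3 ∈ S then (if i = 0 then ind 2 w else if i = 1 then ind 1 w else ind 0 w)
  else if i = 1 ∧ 0 ∈ S then ind 1 w else ind 0 w

open Classical in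
/-- the model: the uniform distribution on three sample points, in every context -/
noncomputable def P (S : MM) (y : Tup OO S.1) : ℝ :=
  ∑ w : Fin 3, if (fun i : {i // i ∈ S.1} => G S.1 w i.1) = y then (1/3 : ℝ) else 0

theorem G_count : ∀ S : Finset (Fin 4), S.card ≤ 2 → ∀ T : Finset (Fin 4), T ⊆ S →
    ∀ z : Fin 4 → Fin 3, (univ.filter fun w : Fin 3 => ∀ i ∈ T, G S w i = z i).card =
      (univ.filter fun w : Fin 3 => ∀ i ∈ T, G T w i = z i).card := by
  decide +kernel

theorem P_mem : P ∈ modelPolytope MM OO := by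
  classical
  refine ⟨fun S y => ?_, fun S => ?_, fun S T h z => ?_⟩
  · exact Finset.sum_nonneg fun w _ => by split_ifs <;> norm_num
  · unfold P
    rw [Finset.sum_comm]
    simp
  · unfold P
    have h1 : ∀ y : Tup OO S.1, (if restr h y = z then
        ∑ w : Fin 3, (if (fun i : {i // i ∈ S.1} => G S.1 w i.1) = y then (1/3 : ℝ) else 0) else 0) =
        ∑ w : Fin 3, (if (fun i : {i // i ∈ S.1} => G S.1 w i.1) = y then
          (if restr h y = z then (1/3 : ℝ) else 0) else 0) := by
      intro y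
      split_ifs with h2
      · rfl
      · simp
    have h2 : ∀ w : Fin 3, ∑ y : Tup OO S.1,
        (if (fun i : {i // i ∈ S.1} => G S.1 w i.1) = y then
          (if restr h y = z then (1/3 : ℝ) else 0) else 0) =
        if restr h (fun i : {i // i ∈ S.1} => G S.1 w i.1) = z then (1/3 : ℝ) else 0 := by
      intro w
      rw [Finset.sum_eq_single (fun i : {i // i ∈ S.1} => G S.1 w i.1)]
      · rw [if_pos rfl]
      · intro b _ hb
        rw [if_neg (Ne.symm hb)]
      · intro hb
        exact absurd (Finset.mem_univ _) hb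
    have h0 : (∑ y : Tup OO S.1, (if restr h y = z then
        ∑ w : Fin 3, (if (fun i : {i // i ∈ S.1} => G S.1 w i.1) = y then (1/3 : ℝ) else 0) else 0)) =
        ∑ w : Fin 3, (if (fun i : {i // i ∈ T.1} => G T.1 w i.1) = z then (1/3 : ℝ) else 0) := ?_
    · convert h0
    rw [Finset.sum_congr rfl fun y _ => h1 y, Finset.sum_comm, Finset.sum_congr rfl fun w _ => h2 w]
    -- extend `z`
    obtain ⟨z', hz'⟩ : ∃ z' : Fin 4 → Fin 3, ∀ i : {i // i ∈ T.1}, z' i.1 = z i :=
      ⟨fun i => if hi : i ∈ T.1 then z ⟨i, hi⟩ else 0, fun i => by simp [i.2]⟩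
    have h3 : ∀ (U : Finset (Fin 4)) (w : Fin 3),
        ((fun i : {i // i ∈ T.1} => G U w i.1) = z) ↔ ∀ i ∈ T.1, G U w i = z' i := by
      intro U w
      constructor
      · intro h4 i hi
        rw [hz' ⟨i, hi⟩, ← h4]
      · intro h4
        funext i
        rw [h4 i.1 i.2, hz' i]
    have h5 : ∀ w : Fin 3, (restr h (fun i : {i // i ∈ S.1} => G S.1 w i.1) = z) ↔
        ∀ i ∈ T.1, G S.1 w i = z' i := fun w => h3 S.1 w
    have e1 : ∀ w : Fin 3, (if restr h (fun i : {i // i ∈ S.1} => G S.1 w i.1) = z then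
        (1/3 : ℝ) else 0) = if (∀ i ∈ T.1, G S.1 w i = z' i) then (1/3 : ℝ) else 0 := by
      intro w
      simp only [h5 w]
    have e2 : ∀ w : Fin 3, (if (fun i : {i // i ∈ T.1} => G T.1 w i.1) = z then
        (1/3 : ℝ) else 0) = if (∀ i ∈ T.1, G T.1 w i = z' i) then (1/3 : ℝ) else 0 := by
      intro w
      simp only [h3 T.1 w]
    simp only [e1, e2]
    rw [← Finset.sum_filter, ← Finset.sum_filter, Finset.sum_const, Finset.sum_const,
      nsmul_eq_mul, nsmul_eq_mul]
    have h6 := G_count S.1 S.2 T.1 h z'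
    rw [h6]

/-! ### Sums over pairs -/

section pairs
variable {i j : Fin 4}

/-- the tuple with values `a` at `i` and `b` elsewhere -/
def mk (i j : Fin 4) (a b : Fin 3) : Tup OO {i, j} := fun k => if k.1 = i then a else b

/-- tuples indexed by a pair -/
def pairEquiv (hij : i ≠ j) : Tup OO {i, j} ≃ Fin 3 × Fin 3 where
  toFun y := (y ⟨i, by simp⟩, y ⟨j, by simp⟩)
  invFun q := mk i j q.1 q.2
  left_inv y := by
    funext k
    obtain ⟨k, hk⟩ := k
    unfold mk
    simp only [Finset.mem_insert, Finset.mem_singleton] at hk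
    rcases hk with rfl | rfl
    · simp
    · simp [Ne.symm hij]
  right_inv q := by
    unfold mk
    simp [Ne.symm hij]

theorem sum_pair (hij : i ≠ j) (F : Tup OO {i, j} → ℝ) :
    ∑ y, F y = ∑ a, ∑ b, F (mk i j a b) := by
  rw [← Fintype.sum_prod_type']
  exact (Fintype.sum_equiv (pairEquiv hij).symm (fun q => F (mk i j q.1 q.2)) F
    (fun q => rfl)).symm

/-- tuples indexed by a singleton -/
def singleEquiv (i : Fin 4) : Tup OO {i} ≃ Fin 3 where
  toFun y := y ⟨i, by simp⟩
  invFun a := fun _ => a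
  left_inv y := by
    funext k
    obtain ⟨k, hk⟩ := k
    simp only [Finset.mem_singleton] at hk
    subst hk
    rfl
  right_inv a := rfl

theorem sum_single (i : Fin 4) (F : Tup OO {i} → ℝ) : ∑ y, F y = ∑ a, F (fun _ => a) := by
  exact (Fintype.sum_equiv (singleEquiv i).symm (fun a => F (fun _ => a)) F (fun q => rfl)).symm

end pairs

theorem pair_mem (i j : Fin 4) : ({i, j} : Finset (Fin 4)) ∈ MM := Finset.card_le_two

theorem single_mem (i : Fin 4) : ({i} : Finset (Fin 4)) ∈ MM := scenario_MM.2.1 i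

/-- values of a model on pairs -/
def V2 (q : (S : MM) → Tup OO S.1 → ℝ) (i j : Fin 4) (a b : Fin 3) : ℝ :=
  q ⟨{i, j}, pair_mem i j⟩ (mk i j a b)

/-- values of a model on singletons -/
def V1 (q : (S : MM) → Tup OO S.1 → ℝ) (i : Fin 4) (a : Fin 3) : ℝ :=
  q ⟨{i}, single_mem i⟩ (fun _ => a)

theorem marg_left {q : (S : MM) → Tup OO S.1 → ℝ} (hq : q ∈ modelPolytope MM OO) {i j : Fin 4}
    (hij : i ≠ j) (a : Fin 3) : V1 q i a = ∑ b, V2 q i j a b := by
  classical
  have h := hq.2.2 ⟨{i, j}, pair_mem i j⟩ ⟨{i}, single_mem i⟩ (by simp) (fun _ => a)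
  unfold V1 V2
  refine h.symm.trans ?_
  rw [sum_pair hij]
  have e : ∀ a' b : Fin 3, (if restr (T := {i}) (S := {i, j}) (by simp) (mk i j a' b) =
      (fun _ => a) then q ⟨{i, j}, pair_mem i j⟩ (mk i j a' b) else 0) =
      if a' = a then q ⟨{i, j}, pair_mem i j⟩ (mk i j a' b) else 0 := by
    intro a' b
    have e1 : (restr (T := {i}) (S := {i, j}) (by simp) (mk i j a' b) = (fun _ => a)) ↔ a' = a := by
      constructor
      · intro h
        have := congrFun h ⟨i, by simp⟩
        simpa [restr, mk] using this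
      · rintro rfl
        funext k
        obtain ⟨k, hk⟩ := k
        simp only [Finset.mem_singleton] at hk
        subst hk
        simp [restr, mk]
    simp only [e1]
  have e' : ∑ a', ∑ b, (if restr (T := {i}) (S := {i, j}) (by simp) (mk i j a' b) =
      (fun _ => a) then q ⟨{i, j}, pair_mem i j⟩ (mk i j a' b) else 0) =
      ∑ b, q ⟨{i, j}, pair_mem i j⟩ (mk i j a b) := by
    rw [Finset.sum_congr rfl fun a' _ => Finset.sum_congr rfl fun b _ => e a' b, Finset.sum_comm]
    refine Finset.sum_congr rfl fun b _ => ?_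
    simp
  convert e'

theorem marg_right {q : (S : MM) → Tup OO S.1 → ℝ} (hq : q ∈ modelPolytope MM OO) {i j : Fin 4}
    (hij : i ≠ j) (b : Fin 3) : V1 q j b = ∑ a, V2 q i j a b := by
  classical
  have h := hq.2.2 ⟨{i, j}, pair_mem i j⟩ ⟨{j}, single_mem j⟩ (by simp) (fun _ => b)
  unfold V1 V2
  refine h.symm.trans ?_
  rw [sum_pair hij]
  have e : ∀ a b' : Fin 3, (if restr (T := {j}) (S := {i, j}) (by simp) (mk i j a b') =
      (fun _ => b) then q ⟨{i, j}, pair_mem i j⟩ (mk i j a b') else 0) =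
      if b' = b then q ⟨{i, j}, pair_mem i j⟩ (mk i j a b') else 0 := by
    intro a b'
    have e1 : (restr (T := {j}) (S := {i, j}) (by simp) (mk i j a b') = (fun _ => b)) ↔ b' = b := by
      constructor
      · intro h
        have := congrFun h ⟨j, by simp⟩
        simpa [restr, mk, Ne.symm hij] using this
      · rintro rfl
        funext k
        obtain ⟨k, hk⟩ := k
        simp only [Finset.mem_singleton] at hk
        subst hk
        simp [restr, mk, Ne.symm hij]
    simp only [e1]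
  have e' : ∑ a, ∑ b', (if restr (T := {j}) (S := {i, j}) (by simp) (mk i j a b') =
      (fun _ => b) then q ⟨{i, j}, pair_mem i j⟩ (mk i j a b') else 0) =
      ∑ a, q ⟨{i, j}, pair_mem i j⟩ (mk i j a b) := by
    rw [Finset.sum_congr rfl fun a _ => Finset.sum_congr rfl fun b' _ => e a b']
    refine Finset.sum_congr rfl fun a _ => ?_
    simp
  convert e'

theorem sum_V1 {q : (S : MM) → Tup OO S.1 → ℝ} (hq : q ∈ modelPolytope MM OO) (i : Fin 4) :
    ∑ a, V1 q i a = 1 := by
  unfold V1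
  rw [← sum_single i (fun y => q ⟨{i}, single_mem i⟩ y)]
  exact hq.2.1 ⟨{i}, single_mem i⟩

/-! ### The values of the model -/

theorem P_V2 (i j : Fin 4) (hij : i ≠ j) (a b : Fin 3) : V2 P i j a b =
    ((univ.filter fun w : Fin 3 => G {i, j} w i = a ∧ G {i, j} w j = b).card : ℝ) * (1/3) := by
  classical
  unfold V2 P
  rw [← Finset.sum_filter, Finset.sum_const, nsmul_eq_mul]
  congr 2
  congr 1
  ext w
  simp only [Finset.mem_filter, Finset.mem_univ, true_and]
  constructor
  · intro h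
    have h1 := congrFun h ⟨i, by simp⟩
    have h2 := congrFun h ⟨j, by simp⟩
    simp only [mk, if_true] at h1
    simp only [mk, if_neg (Ne.symm hij)] at h2
    exact ⟨h1, h2⟩
  · rintro ⟨h1, h2⟩
    funext k
    obtain ⟨k, hk⟩ := k
    simp only [Finset.mem_insert, Finset.mem_singleton] at hk
    rcases hk with rfl | rfl
    · simp [mk, h1]
    · simp [mk, Ne.symm hij, h2]

theorem P_V1 (i : Fin 4) (a : Fin 3) : V1 P i a =
    ((univ.filter fun w : Fin 3 => G {i} w i = a).card : ℝ) * (1/3) := by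
  classical
  unfold V1 P
  rw [← Finset.sum_filter, Finset.sum_const, nsmul_eq_mul]
  congr 2
  congr 1
  ext w
  simp only [Finset.mem_filter, Finset.mem_univ, true_and]
  constructor
  · intro h
    exact congrFun h ⟨i, by simp⟩
  · intro h1
    funext k
    obtain ⟨k, hk⟩ := k
    simp only [Finset.mem_singleton] at hk
    subst hk
    exact h1

/-- numbers of sample points -/
def cnt2 (i j : Fin 4) (a b : Fin 3) : ℕ :=
  (univ.filter fun w : Fin 3 => G {i, j} w i = a ∧ G {i, j} w j = b).card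

/-- numbers of sample points -/
def cnt1 (i : Fin 4) (a : Fin 3) : ℕ := (univ.filter fun w : Fin 3 => G {i} w i = a).card

/-! ### Uniqueness -/

set_option maxHeartbeats 4000000 in
/-- a model whose support is contained in the support of `P` is equal to `P` -/
theorem unique {q : (S : MM) → Tup OO S.1 → ℝ} (hq : q ∈ modelPolytope MM OO)
    (hs : ∀ S y, P S y = 0 → q S y = 0) : q = P := by
  classical
  have z2 : ∀ i j : Fin 4, i ≠ j → ∀ a b : Fin 3, cnt2 i j a b = 0 → V2 q i j a b = 0 := by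
    intro i j hij a b h
    refine hs _ _ ?_
    have := P_V2 i j hij a b
    unfold cnt2 at h
    rw [h] at this
    simpa [V2] using this
  have z1 : ∀ (i : Fin 4) (a : Fin 3), cnt1 i a = 0 → V1 q i a = 0 := by
    intro i a h
    refine hs _ _ ?_
    have := P_V1 i a
    unfold cnt1 at h
    rw [h] at this
    simpa [V1] using this
  have L : ∀ i j : Fin 4, i ≠ j → ∀ a : Fin 3,
      V1 q i a = V2 q i j a 0 + V2 q i j a 1 + V2 q i j a 2 := by
    intro i j hij a
    rw [marg_left hq hij a, Fin.sum_univ_three]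
  have R : ∀ i j : Fin 4, i ≠ j → ∀ b : Fin 3,
      V1 q j b = V2 q i j 0 b + V2 q i j 1 b + V2 q i j 2 b := by
    intro i j hij b
    rw [marg_right hq hij b, Fin.sum_univ_three]
  have N : ∀ i : Fin 4, V1 q i 0 + V1 q i 1 + V1 q i 2 = 1 := by
    intro i
    rw [← sum_V1 hq i, Fin.sum_univ_three]
  -- the vanishing values
  have a02 := z2 0 2 (by decide)
  have a12 := z2 1 2 (by decide)
  have a01 := z2 0 1 (by decide)
  have a03 := z2 0 3 (by decide)
  have a13 := z2 1 3 (by decide)
  have a23 := z2 2 3 (by decide)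
  -- pair 02
  have t02 : V1 q 0 1 = V2 q 0 2 1 1 ∧ V1 q 2 1 = V2 q 0 2 1 1 := by
    have l := L 0 2 (by decide) 1
    have r := R 0 2 (by decide) 1
    rw [a02 1 0 (by decide +kernel), a02 1 2 (by decide +kernel)] at l
    rw [a02 0 1 (by decide +kernel), a02 2 1 (by decide +kernel)] at r
    constructor <;> linarith
  have t12 : V1 q 1 1 = V2 q 1 2 1 1 ∧ V1 q 2 1 = V2 q 1 2 1 1 := by
    have l := L 1 2 (by decide) 1
    have r := R 1 2 (by decide) 1
    rw [a12 1 0 (by decide +kernel), a12 1 2 (by decide +kernel)] at l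
    rw [a12 0 1 (by decide +kernel), a12 2 1 (by decide +kernel)] at r
    constructor <;> linarith
  have t01 : V1 q 0 1 = V2 q 0 1 1 0 ∧ V1 q 1 1 = V2 q 0 1 0 1 ∧
      V1 q 0 0 = V2 q 0 1 0 0 + V2 q 0 1 0 1 := by
    have l := L 0 1 (by decide) 1
    have r := R 0 1 (by decide) 1
    have l' := L 0 1 (by decide) 0
    rw [a01 1 1 (by decide +kernel), a01 1 2 (by decide +kernel)] at l
    rw [a01 1 1 (by decide +kernel), a01 2 1 (by decide +kernel)] at r
    rw [a01 0 2 (by decide +kernel)] at l'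
    refine ⟨?_, ?_, ?_⟩ <;> linarith
  have t03 : V1 q 0 1 = V2 q 0 3 1 2 ∧ V1 q 3 2 = V2 q 0 3 1 2 ∧ V1 q 3 0 = V2 q 0 3 0 0 ∧
      V1 q 3 1 = V2 q 0 3 0 1 := by
    have l := L 0 3 (by decide) 1
    have r := R 0 3 (by decide) 2
    have r0 := R 0 3 (by decide) 0
    have r1 := R 0 3 (by decide) 1
    rw [a03 1 0 (by decide +kernel), a03 1 1 (by decide +kernel)] at l
    rw [a03 0 2 (by decide +kernel), a03 2 2 (by decide +kernel)] at r
    rw [a03 1 0 (by decide +kernel), a03 2 0 (by decide +kernel)] at r0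
    rw [a03 1 1 (by decide +kernel), a03 2 1 (by decide +kernel)] at r1
    refine ⟨?_, ?_, ?_, ?_⟩ <;> linarith
  have t13 : V1 q 1 1 = V2 q 1 3 1 1 ∧ V1 q 3 1 = V2 q 1 3 1 1 ∧ V1 q 3 0 = V2 q 1 3 0 0 ∧
      V1 q 3 2 = V2 q 1 3 0 2 := by
    have l := L 1 3 (by decide) 1
    have r := R 1 3 (by decide) 1
    have r0 := R 1 3 (by decide) 0
    have r1 := R 1 3 (by decide) 2
    rw [a13 1 0 (by decide +kernel), a13 1 2 (by decide +kernel)] at l
    rw [a13 0 1 (by decide +kernel), a13 2 1 (by decide +kernel)] at r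
    rw [a13 1 0 (by decide +kernel), a13 2 0 (by decide +kernel)] at r0
    rw [a13 1 2 (by decide +kernel), a13 2 2 (by decide +kernel)] at r1
    refine ⟨?_, ?_, ?_, ?_⟩ <;> linarith
  have t23 : V1 q 2 1 = V2 q 2 3 1 0 ∧ V1 q 3 0 = V2 q 2 3 1 0 ∧ V1 q 3 1 = V2 q 2 3 0 1 ∧
      V1 q 3 2 = V2 q 2 3 0 2 := by
    have l := L 2 3 (by decide) 1
    have r := R 2 3 (by decide) 0
    have r0 := R 2 3 (by decide) 1
    have r1 := R 2 3 (by decide) 2
    rw [a23 1 1 (by decide +kernel), a23 1 2 (by decide +kernel)] at l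
    rw [a23 0 0 (by decide +kernel), a23 2 0 (by decide +kernel)] at r
    rw [a23 1 1 (by decide +kernel), a23 2 1 (by decide +kernel)] at r0
    rw [a23 1 2 (by decide +kernel), a23 2 2 (by decide +kernel)] at r1
    refine ⟨?_, ?_, ?_, ?_⟩ <;> linarith
  have n0 := N 0
  have n1 := N 1
  have n2 := N 2
  have n3 := N 3
  have v02 := z1 0 2 (by decide +kernel)
  have v12 := z1 1 2 (by decide +kernel)
  have v22 := z1 2 2 (by decide +kernel)
  -- everything on singletons
  have x01 : V1 q 0 1 = 1/3 := by linarith [t02.1, t02.2, t12.1, t12.2, t03.1, t03.2.1, t13.1,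
    t13.2.1, t23.1, t23.2.1]
  have x11 : V1 q 1 1 = 1/3 := by linarith [t02.1, t02.2, t12.1, t12.2]
  have x21 : V1 q 2 1 = 1/3 := by linarith [t02.1, t02.2]
  have x32 : V1 q 3 2 = 1/3 := by linarith [t03.1, t03.2.1]
  have x31 : V1 q 3 1 = 1/3 := by linarith [t13.1, t13.2.1]
  have x30 : V1 q 3 0 = 1/3 := by linarith [t23.1, t23.2.1]
  have x00 : V1 q 0 0 = 2/3 := by linarith
  have x10 : V1 q 1 0 = 2/3 := by linarith
  have x20 : V1 q 2 0 = 2/3 := by linarith
  -- the value 0 0 in the pairs 02, 12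
  have y02 : V2 q 0 2 0 0 = 2/3 := by
    have l := L 0 2 (by decide) 0
    rw [a02 0 1 (by decide +kernel), a02 0 2 (by decide +kernel)] at l
    linarith
  have y12 : V2 q 1 2 0 0 = 2/3 := by
    have l := L 1 2 (by decide) 0
    rw [a12 0 1 (by decide +kernel), a12 0 2 (by decide +kernel)] at l
    linarith
  -- comparison on singletons
  have E1 : ∀ (i : Fin 4) (a : Fin 3), V1 q i a = (cnt1 i a : ℝ) * (1/3) := by
    have c : ∀ (i : Fin 4) (a : Fin 3), cnt1 i a =
        (![![2, 1, 0], ![2, 1, 0], ![2, 1, 0], ![1, 1, 1]] : Fin 4 → Fin 3 → ℕ) i a := by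
      decide +kernel
    intro i a
    rw [c]
    fin_cases i <;> fin_cases a <;> simp <;> linarith
  have E2 : ∀ (i j : Fin 4), i < j → ∀ a b : Fin 3, V2 q i j a b = (cnt2 i j a b : ℝ) * (1/3) := by
    intro i j hij a b
    rcases Nat.eq_zero_or_pos (cnt2 i j a b) with h0 | h0
    · rw [h0, z2 i j hij.ne a b h0]; simp
    · have hcase : (i, j, a, b, cnt2 i j a b) ∈
          ([(0, 1, 1, 0, 1), (0, 1, 0, 1, 1), (0, 1, 0, 0, 1), (0, 2, 1, 1, 1), (0, 2, 0, 0, 2),
            (1, 2, 1, 1, 1), (1, 2, 0, 0, 2), (0, 3, 1, 2, 1), (0, 3, 0, 0, 1), (0, 3, 0, 1, 1),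
            (1, 3, 1, 1, 1), (1, 3, 0, 0, 1), (1, 3, 0, 2, 1), (2, 3, 1, 0, 1), (2, 3, 0, 1, 1),
            (2, 3, 0, 2, 1)] : List (Fin 4 × Fin 4 × Fin 3 × Fin 3 × ℕ)) := by
        revert h0 hij
        revert i j a b
        decide +kernel
      simp only [List.mem_cons, Prod.mk.injEq, List.not_mem_nil, or_false] at hcase
      rcases hcase with h | h | h | h | h | h | h | h | h | h | h | h | h | h | h | h <;>
        obtain ⟨rfl, rfl, rfl, rfl, h⟩ := h <;> rw [h] <;> push_cast <;>
        linarith [t01.1, t01.2.1, t01.2.2, t02.1, t12.1, t03.1, t03.2.1, t03.2.2.1, t03.2.2.2,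
          t13.1, t13.2.1, t13.2.2.1, t13.2.2.2, t23.1, t23.2.1, t23.2.2.1, t23.2.2.2]
  -- conclusion
  funext S y
  obtain ⟨S, hS⟩ := S
  have hS' : S.card ≤ 2 := hS
  interval_cases hc : S.card
  · rw [Finset.card_eq_zero] at hc
    subst hc
    have u : ∀ r ∈ modelPolytope MM OO, r ⟨∅, hS⟩ y = 1 := by
      intro r hr
      have := hr.2.1 ⟨∅, hS⟩
      rw [Fintype.sum_subsingleton _ y] at this
      exact this
    rw [u q hq, u P P_mem]
  · rw [Finset.card_eq_one] at hc
    obtain ⟨i, rfl⟩ := hc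
    have hy : y = fun _ => y ⟨i, by simp⟩ := ((singleEquiv i).left_inv y).symm
    rw [hy]
    exact (E1 i (y ⟨i, by simp⟩)).trans (P_V1 i (y ⟨i, by simp⟩)).symm
  · rw [Finset.card_eq_two] at hc
    obtain ⟨i, j, hij, rfl⟩ := hc
    rcases lt_or_gt_of_ne hij with hlt | hlt
    · have hy : y = mk i j (y ⟨i, by simp⟩) (y ⟨j, by simp⟩) := ((pairEquiv hij).left_inv y).symm
      rw [hy]
      exact (E2 i j hlt _ _).trans (P_V2 i j hij _ _).symm
    · have hcomm : ({i, j} : Finset (Fin 4)) = {j, i} := Finset.pair_comm i j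
      revert y hS hS'
      rw [hcomm]
      intro hS _ y
      have hy : y = mk j i (y ⟨j, by simp⟩) (y ⟨i, by simp⟩) :=
        ((pairEquiv (Ne.symm hij)).left_inv y).symm
      rw [hy]
      exact (E2 j i hlt _ _).trans (P_V2 j i (Ne.symm hij) _ _).symm

theorem P_extreme : P ∈ (modelPolytope MM OO).extremePoints ℝ := by
  have key : ∀ q ∈ modelPolytope MM OO, ∀ r ∈ modelPolytope MM OO, P ∈ openSegment ℝ q r →
      q = P := by
    rintro q hq r hr ⟨a, b, ha, hb, _, hab⟩
    refine unique hq fun S y h => ?_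
    have h1 : a * q S y + b * r S y = P S y := by
      rw [← hab]; rfl
    rw [h] at h1
    have h2 := mul_nonneg ha.le (hq.1 S y)
    have h3 := mul_nonneg hb.le (hr.1 S y)
    have h4 : a * q S y = 0 := by linarith
    rcases mul_eq_zero.1 h4 with h5 | h5
    · exact absurd h5 ha.ne'
    · exact h5
  exact ⟨P_mem, fun q hq r hr h => key q hq r hr h⟩

/-! ### The entropies -/

theorem ent_pair (i j : Fin 4) (hij : i ≠ j) : entropyFn P ⟨{i, j}, pair_mem i j⟩ =
    ∑ a, ∑ b, Real.negMulLog ((cnt2 i j a b : ℝ) * (1/3)) := by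
  unfold entropyFn
  rw [sum_pair hij]
  refine Finset.sum_congr rfl fun a _ => Finset.sum_congr rfl fun b _ => ?_
  rw [← show V2 P i j a b = (cnt2 i j a b : ℝ) * (1/3) from P_V2 i j hij a b]
  rfl

theorem ent_single (i : Fin 4) : entropyFn P ⟨{i}, single_mem i⟩ =
    ∑ a, Real.negMulLog ((cnt1 i a : ℝ) * (1/3)) := by
  unfold entropyFn
  rw [sum_single i]
  refine Finset.sum_congr rfl fun a _ => ?_
  rw [← show V1 P i a = (cnt1 i a : ℝ) * (1/3) from P_V1 i a]
  rfl

theorem contextual : ¬ NonContextual MM (entropyFn P) := by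
  rintro ⟨f, ⟨_, hmono, hsub⟩, hf⟩
  have h01 : entropyFn P ⟨{0, 1}, pair_mem 0 1⟩ = f {0, 1} := hf _
  have h02 : entropyFn P ⟨{0, 2}, pair_mem 0 2⟩ = f {0, 2} := hf _
  have h12 : entropyFn P ⟨{1, 2}, pair_mem 1 2⟩ = f {1, 2} := hf _
  have h2 : entropyFn P ⟨{2}, single_mem 2⟩ = f {2} := hf _
  rw [ent_pair 0 1 (by decide)] at h01
  rw [ent_pair 0 2 (by decide)] at h02
  rw [ent_pair 1 2 (by decide)] at h12
  rw [ent_single 2] at h2
  have c01 : ∀ a b, cnt2 0 1 a b = (![![1, 1, 0], ![1, 0, 0], ![0, 0, 0]] :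
      Fin 3 → Fin 3 → ℕ) a b := by decide +kernel
  have c02 : ∀ a b, cnt2 0 2 a b = (![![2, 0, 0], ![0, 1, 0], ![0, 0, 0]] :
      Fin 3 → Fin 3 → ℕ) a b := by decide +kernel
  have c12 : ∀ a b, cnt2 1 2 a b = (![![2, 0, 0], ![0, 1, 0], ![0, 0, 0]] :
      Fin 3 → Fin 3 → ℕ) a b := by decide +kernel
  have c2 : ∀ a, cnt1 2 a = (![2, 1, 0] : Fin 3 → ℕ) a := by decide +kernel
  simp only [c01, Fin.sum_univ_three] at h01
  simp only [c02, Fin.sum_univ_three] at h02
  simp only [c12, Fin.sum_univ_three] at h12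
  simp only [c2, Fin.sum_univ_three] at h2
  simp [Real.negMulLog] at h01 h02 h12 h2
  have e1 := hsub {0, 2} {1, 2}
  have e2 : (({0, 2} : Finset (Fin 4)) ∪ {1, 2}) = {0, 1, 2} := by decide
  have e3 : (({0, 2} : Finset (Fin 4)) ∩ {1, 2}) = {2} := by decide
  rw [e2, e3] at e1
  have e4 := hmono {0, 1} {0, 1, 2} (by decide)
  have l2 : Real.log (2 * 3⁻¹) = Real.log 2 - Real.log 3 := by
    rw [← div_eq_mul_inv, Real.log_div (by norm_num) (by norm_num)]
  rw [l2] at h02 h12 h2
  have l3 : 0 < Real.log 2 := Real.log_pos (by norm_num)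
  nlinarith

/-- **An extreme point with a contextual entropy function.** For four random variables with three
outcomes each and the marginal scenario of all sets with at most two elements, the polytope of
marginal models has an extreme point whose entropy function is not the restriction of a
polymatroid. -/
theorem result : IsScenario {S : Finset (Fin 4) | S.card ≤ 2} ∧
    ∃ p ∈ (modelPolytope {S : Finset (Fin 4) | S.card ≤ 2} (fun _ => Fin 3)).extremePoints ℝ,
      ¬ NonContextual {S : Finset (Fin 4) | S.card ≤ 2} (entropyFn p) :=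
  ⟨scenario_MM, P, P_extreme, contextual⟩

end Pool.Agent.Results.MP_2f9b3f_lc.ContextualVertex
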